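import Mathlib

set_option autoImplicit false
open Finset ComplexConjugate

namespace Pool.Agent.H.MP_60133c_an

def R (w a b : ℂ) : Prop := ∃ α β : ℝ, 0 ≤ α ∧ 0 ≤ β ∧ b * conj a = α + β * w

variable {w a b c : ℂ}

theorem R.refl : R w a a := ⟨Complex.normSq a, 0, Complex.normSq_nonneg _, le_rfl, by
  simp [Complex.mul_conj]⟩
theorem R.zl : R w 0 a := ⟨0, 0, le_rfl, le_rfl, by simp⟩
theorem R.zr : R w a 0 := ⟨0, 0, le_rfl, le_rfl, by simp⟩
theorem R.addr (h : R w a b) (k : R w a c) : R w a (b + c) := by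
  obtain ⟨α, β, h1, h2, h⟩ := h
  obtain ⟨γ, δ, k1, k2, k⟩ := k
  exact ⟨α + γ, β + δ, by positivity, by positivity, by rw [add_mul, h, k]; push_cast; ring⟩
theorem R.addl (h : R w a c) (k : R w b c) : R w (a + b) c := by
  obtain ⟨α, β, h1, h2, h⟩ := h
  obtain ⟨γ, δ, k1, k2, k⟩ := k
  exact ⟨α + γ, β + δ, by positivity, by positivity, by
    rw [map_add, mul_add, h, k]; push_cast; ring⟩
theorem R.mul (h : R w a b) {s t : ℝ} (hs : 0 ≤ s) (ht : 0 ≤ t) : R w (s * a) (t * b) := by
  obtain ⟨α, β, h1, h2, h⟩ := h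
  exact ⟨s * t * α, s * t * β, by positivity, by positivity, by
    rw [map_mul, Complex.conj_ofReal]; push_cast; linear_combination s * t * h⟩
theorem R.scale (h : R w a b) (c : ℂ) : R w (c * a) (c * b) := by
  obtain ⟨α, β, h1, h2, h⟩ := h
  have := Complex.normSq_nonneg c
  exact ⟨Complex.normSq c * α, Complex.normSq c * β, by positivity, by positivity, by
    rw [map_mul]; push_cast; rw [← Complex.mul_conj]; linear_combination c * conj c * h⟩
theorem R.rot (h : R w a b) : R w b (w * a) := by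
  obtain ⟨α, β, h1, h2, h⟩ := h
  have := Complex.normSq_nonneg w
  have h' := congrArg conj h
  simp only [map_mul, map_add, Complex.conj_conj, Complex.conj_ofReal] at h'
  exact ⟨β * Complex.normSq w, α, by positivity, h1, by
    push_cast; rw [← Complex.mul_conj]; linear_combination w * h'⟩
theorem R.suml {s : Finset ℕ} {f : ℕ → ℂ} (h : ∀ i ∈ s, R w (f i) a) : R w (∑ i ∈ s, f i) a :=
  sum_induction f (R w · a) (fun _ _ => .addl) .zl h
theorem R.sumr {s : Finset ℕ} {f : ℕ → ℂ} (h : ∀ i ∈ s, R w a (f i)) : R w a (∑ i ∈ s, f i) :=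
  sum_induction f (R w a ·) (fun _ _ => .addr) .zr h
theorem R.ne (hw : ¬ (w.im = 0 ∧ w.re < 0)) (h : R w a b) (ha : a ≠ 0) {t : ℝ} (ht : 0 < t) :
    t * a + b ≠ 0 := fun e => by
  obtain ⟨α, β, h1, h2, h⟩ := h
  have := Complex.normSq_pos.2 ha
  have e2 : (t * Complex.normSq a + α + β * w : ℂ) = 0 := by
    rw [← Complex.mul_conj]; linear_combination conj a * e - h
  have e3 := congrArg Complex.re e2
  have e4 := congrArg Complex.im e2
  simp at e3 e4
  have : β * w.re < 0 := by nlinarith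
  exact hw ⟨e4.resolve_left (by rintro rfl; simp at this), neg_of_mul_neg_right this h2⟩

section
open PowerSeries

theorem core (hw : ¬ (w.im = 0 ∧ w.re < 0)) {n r : ℕ} {a : ℕ → ℝ} (ha : ∀ i, 0 < a i) {F : ℂ⟦X⟧}
    (hF : F * (∏ i ∈ range (n + 1), (1 - C (a i : ℂ) * X) - C w * X ^ r) = 1) (m : ℕ) :
    coeff m F ≠ 0 := by
  obtain ⟨x, hx⟩ : ∃ x : ℕ → ℂ⟦X⟧, ∀ s, x s = F * ∏ i ∈ Ico s (n + 1), (1 - C (a i : ℂ) * X) :=
    ⟨_, fun _ => rfl⟩
  have xn : x (n + 1) = F := by simp [hx]
  have x0 : x 0 = 1 + C w * (X ^ r * F) := by rw [hx, ← range_eq_Ico]; linear_combination hF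
  have c0 : ∀ s, coeff 0 (x s) = coeff 0 F := fun s => by simp [hx]
  have f0 : coeff 0 F ≠ 0 := fun e => by
    have := congrArg constantCoeff hF
    rw [map_mul, ← coeff_zero_eq_constantCoeff_apply F, e] at this; simp at this
  have st : ∀ m s t, s ≤ t → t ≤ n + 1 → coeff (m + 1) (x t) = coeff (m + 1) (x s) +
      ∑ i ∈ Ico s t, a i * coeff m (x (i + 1)) := fun m s t h h' => by
    induction t, h using Nat.le_induction with
    | base => simp
    | succ t h ih =>
      rw [sum_Ico_succ_top h, ← add_assoc, ← ih (by omega), hx t, prod_eq_prod_Ico_succ_bot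
        (by omega), mul_left_comm, ← hx, sub_mul, one_mul, mul_assoc, map_sub, coeff_C_mul,
        coeff_succ_X_mul, sub_add_cancel]
  have ss : ∀ m s t u v, (∀ s t, 1 ≤ s → s ≤ t → t ≤ n + 1 → R w (coeff m (x t)) (coeff m (x s))) →
      t ≤ u → v ≤ n + 1 → R w (∑ i ∈ Ico u v, a i * coeff m (x (i + 1)))
        (∑ i ∈ Ico s t, a i * coeff m (x (i + 1))) := fun m s t u v h h1 h2 =>
    .suml fun i hi => .sumr fun j hj => (h _ _ (by omega) (by grind) (by grind)).mul (ha _).le (ha _).le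
  rcases r with _ | r
  · have w1 : 1 - w ≠ 0 := fun e => by simpa [e] using congrArg constantCoeff hF
    have key : ∀ m s, s ≤ n + 1 → coeff (m + 1) (x s) = (1 - w)⁻¹ *
        (∑ i ∈ Ico 0 s, a i * coeff m (x (i + 1)) +
          w * ∑ i ∈ Ico s (n + 1), a i * coeff m (x (i + 1))) := fun m s h => by
      have h1 := st m 0 s (by omega) h
      have h2 := st m s _ h le_rfl
      rw [x0] at h1
      simp only [pow_zero, one_mul, map_add, coeff_C_mul, coeff_one, m.succ_ne_zero, if_false] at h1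
      rw [xn] at h2
      field_simp; linear_combination h1 + w * h2
    suffices coeff m F ≠ 0 ∧ ∀ s t, 1 ≤ s → s ≤ t → t ≤ n + 1 →
      R w (coeff m (x t)) (coeff m (x s)) from this.1
    induction m with
    | zero => exact ⟨f0, fun s t _ _ _ => by rw [c0, c0]; exact .refl⟩
    | succ m ih =>
      refine ⟨?_, fun s t _ h1 h2 => ?_⟩
      · rw [← xn, key _ _ le_rfl, sum_Ico_succ_top (by omega), Ico_self, sum_empty, mul_zero,
          add_zero, add_comm]
        refine mul_ne_zero (inv_ne_zero w1) (R.ne hw (.sumr fun j hj => ?_) (xn ▸ ih.1) (ha n))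
        simpa using (ih.2 _ _ (by omega) (by grind) le_rfl).mul zero_le_one (ha j).le
      · rw [key _ _ h2, key _ _ (h1.trans h2), ← sum_Ico_consecutive _ (Nat.zero_le s) h1,
          ← sum_Ico_consecutive _ h1 h2, mul_add w, add_right_comm, add_comm (w * _), ← add_assoc]
        have := (ss m 0 s s t ih.2 le_rfl h2).addr (ss m s t t _ ih.2 le_rfl le_rfl).rot
        exact ((R.refl.addr this.rot).addl (this.addr R.refl.rot)).scale _
  · suffices coeff m F ≠ 0 ∧ (∀ s t, 1 ≤ s → s ≤ t → t ≤ n + 1 →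
      R w (coeff m (x t)) (coeff m (x s))) ∧ (∀ j s, j ≤ r → 1 ≤ s → s ≤ n + 1 →
        R w (coeff m (X ^ j * F)) (coeff m (x s))) ∧ ∀ j k, k ≤ j → j ≤ r →
          R w (coeff m (X ^ j * F)) (coeff m (X ^ k * F)) from this.1
    induction m with
    | zero =>
      refine ⟨f0, fun s t _ _ _ => by rw [c0, c0]; exact .refl, fun j s _ _ _ => ?_,
        fun j k h _ => ?_⟩
      · rcases j with _ | j
        · rw [c0]; simpa using R.refl
        · simpa using R.zl
      · rcases j with _ | j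
        · obtain rfl : k = 0 := by omega
          exact .refl
        · simpa using R.zl
    | succ m ih =>
      obtain ⟨i1, i2, i3, i4⟩ := ih
      have sh : ∀ j, coeff (m + 1) (X ^ (j + 1) * F) = coeff m (X ^ j * F) := fun j => by
        rw [pow_succ', mul_assoc, coeff_succ_X_mul]
      have key : ∀ s, s ≤ n + 1 → coeff (m + 1) (x s) = w * coeff m (X ^ r * F) +
          ∑ i ∈ Ico 0 s, a i * coeff m (x (i + 1)) := fun s h => by
        rw [st m 0 s (by omega) h, x0, map_add, coeff_C_mul, sh]; simp [coeff_one]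
      have j2 : ∀ s t, 1 ≤ s → s ≤ t → t ≤ n + 1 →
          R w (coeff (m + 1) (x t)) (coeff (m + 1) (x s)) := fun s t _ h1 h2 => by
        rw [st m s t h1 h2]
        refine R.refl.addl ?_
        rw [key _ (h1.trans h2)]
        refine .addr (.rot (.sumr fun j hj => ?_)) (ss m 0 s s t i2 le_rfl h2)
        simpa using (i3 r _ le_rfl (by omega) (by grind)).mul zero_le_one (ha j).le
      have j3 : ∀ j s, j ≤ r → 1 ≤ s → s ≤ n + 1 →
          R w (coeff (m + 1) (X ^ j * F)) (coeff (m + 1) (x s)) := fun j s h h1 h2 => by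
        rcases j with _ | j
        · simpa [xn] using j2 s _ h1 h2 le_rfl
        · rw [sh, key _ h2]
          refine (i4 r j (by omega) le_rfl).rot.addr (.sumr fun i hi => ?_)
          simpa using (i3 j _ (by omega) (by omega) (by grind)).mul zero_le_one (ha i).le
      refine ⟨?_, j2, j3, fun j k h h' => ?_⟩
      · rw [← xn, key _ le_rfl, sum_Ico_succ_top (by omega), ← add_assoc, add_comm]
        refine R.ne hw (.addr (i3 r _ le_rfl (by omega) le_rfl).rot (.sumr fun j hj => ?_))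
          (xn ▸ i1) (ha n)
        simpa using (i2 _ _ (by omega) (by grind) le_rfl).mul zero_le_one (ha j).le
      · rcases k with _ | k
        · simpa [xn] using j3 j _ h' (by omega) le_rfl
        · obtain ⟨j, rfl⟩ : ∃ i, j = i + 1 := ⟨j - 1, by omega⟩
          rw [sh, sh]; exact i4 _ _ (by omega) (by omega)

theorem num {A : Type} [CommRing A] (D : A⟦X⟧) (m : ℕ) : ∃ N : A, ∀ (K : Type) [Field K]
    (φ : A →+* K), (φ (coeff 0 D) ≠ 0 → coeff m (map φ D)⁻¹ = φ N / φ (coeff 0 D) ^ (m + 1)) ∧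
      (φ (coeff 0 D) = 0 → φ N = (- φ (coeff 1 D)) ^ m) := by
  obtain ⟨E, hE⟩ : ∃ E : A⟦X⟧, E = 1 + X * PowerSeries.mk fun j => coeff (j + 1) D * coeff 0 D ^ j := ⟨_, rfl⟩
  have h := E.mul_invOfUnit 1 (by simp [hE])
  refine ⟨coeff m (E.invOfUnit 1), fun K _ φ => ?_⟩
  have h' := congrArg (map φ) h
  rw [map_mul, map_one] at h'
  refine ⟨fun h0 => ?_, fun h0 => ?_⟩
  · have e : rescale (φ (coeff 0 D)) (map φ D) = C (φ (coeff 0 D)) * map φ E := by
      ext (_ | j) <;> simp [hE, coeff_succ_X_mul, coeff_one]; ring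
    have := congrArg (rescale (φ (coeff 0 D))) ((map φ D).mul_inv_cancel (by
      rwa [← coeff_zero_eq_constantCoeff_apply, coeff_map]))
    rw [map_mul, map_one, e, mul_comm (C _), mul_assoc] at this
    have := congrArg (coeff m) (left_inv_eq_right_inv ((mul_comm _ _).trans h') this)
    rw [coeff_map, coeff_C_mul, coeff_rescale] at this
    rw [this]; field_simp; ring
  · have e : map φ E = 1 - C (- φ (coeff 1 D)) * X := by
      rw [coeff_zero_eq_constantCoeff_apply] at h0
      ext (_ | _ | j) <;> simp [hE, coeff_succ_X_mul, coeff_one, h0, coeff_X]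
    have := congrArg (rescale (- φ (coeff 1 D))) (mk_one_mul_one_sub_eq_one K)
    rw [map_mul, map_sub, map_one, rescale_X, ← e] at this
    rw [← coeff_map, ← left_inv_eq_right_inv this h']; simp

end

open Polynomial in
theorem fact (s : Multiset ℂ) (h : ∀ z ∈ s, z.im = 0 ∧ 0 < z.re) : ∃ (a : ℕ → ℝ) (k : ℂ),
    (∀ i, 0 < a i) ∧ (s.map (X - C ·)).prod = C k * ∏ i ∈ range s.card, (1 - C (a i : ℂ) * X) := by
  induction s using Multiset.induction with
  | empty => exact ⟨1, 1, by simp, by simp⟩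
  | cons z s ih =>
    obtain ⟨a, k, ha, e⟩ := ih fun z hz => h z (Multiset.mem_cons_of_mem hz)
    obtain ⟨z1, z2⟩ := h z (Multiset.mem_cons_self _ _)
    obtain ⟨z, rfl⟩ : ∃ y : ℝ, z = y := ⟨z.re, Complex.ext rfl (by simpa using z1)⟩
    have z0 : (z : ℂ) ≠ 0 := by rintro e; simp [e] at z2
    refine ⟨fun i => Nat.casesOn i z⁻¹ a, - z * k, ?_, ?_⟩
    · rintro (_ | i)
      · simpa using z2
      · exact ha i
    · have : C (z : ℂ) * C (z : ℂ)⁻¹ = 1 := by rw [← C_mul, mul_inv_cancel₀ z0, C_1]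
      rw [Multiset.map_cons, Multiset.prod_cons, e, Multiset.card_cons, prod_range_succ']
      simp only [Nat.rec_zero, Complex.ofReal_inv, C_mul, C_neg]
      linear_combination (-X * C k * ∏ i ∈ range s.card, (1 - C (a i : ℂ) * X)) * this

end Pool.Agent.H.MP_60133c_an
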